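import Pool.Agent.Helper36.NW.GoodOf
import Pool.Agent.Helper60.NW.G1
import Pool.Agent.Helper82.NW.SS
import Pool.Agent.Helper90.NW.Out
import Pool.Agent.Helper84.NW.Fl
import Pool.Agent.Helper10.NW.Win
import Pool.Agent.Helper53.NS.Dev
import Pool.Agent.Helper57.TX.Final

/-!
# NW, blocks G4 and H, without hypotheses
-/

set_option autoImplicit false
set_option linter.unusedVariables false
open MeasureTheory Set Filter Topology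
open Pool.Agent.Helper57.Zeta Pool.Agent.Helper57.LH Pool.Agent.Helper57.ED
open Pool.Agent.Helper54.LG (za zb qk SS MM)
open Pool.Agent.Helper93.UG (zc sp)
open Pool.Agent.Helper69.UG (XX NX)
open Pool.Agent.Helper57.TX (QX DP rs)
open Pool.Agent.Helper57.NW

namespace Pool.Agent.Helper36.NW

/-- G4: all weights at once -/
theorem good {k κ : ℝ} (hk : 0 < k) (hk8 : k ≤ 1 / 8) (hκ : 0 < κ) (hκ8 : κ ≤ 1 / 8) :
    ∃ c C T₀ : ℝ, 0 < c ∧ 1 ≤ C ∧ ∀ T L : ℝ, T₀ ≤ T → C ≤ L → L ≤ Real.log T →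
    ∃ E : Set ℝ, volume E ≤ ENNReal.ofReal (C * L ^ (-4 : ℝ) * T) ∧ ∀ t ∈ Icc (T / 2) (3 * T), t ∉ E → ∀ u : ℝ, |u - t| ≤ sp T →
    ∀ (J : Finset ℕ) (b : ℕ → ℝ) (B X : ℝ),
      (∀ j ∈ J, b j ≠ 0 → L ^ κ ≤ (1 + k) ^ j ∧ (1 + k) ^ j ≤ L ^ (1 - κ) ∧ XX T ((1 + k) ^ j) ≤ X) →
      ∑ j ∈ J, |b j| ≤ B →
      |Tb k T J b u - (Mb k J b - (DP (QX X) (rb k T J b) t).re)| ≤ B * (C * L ^ (-c)) ∧
      |Ob k T L J b u - (Mb k J b - ∫ x in (-L)..L, Pb k J b x)| ≤ B * (C * L ^ (-c)) :=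
  good_of hk hk8 hκ hκ8 (Pool.Agent.Helper60.NW.tot_sc hk hk8 hκ hκ8) (Pool.Agent.Helper82.NW.ss_sc hk hk8 hκ hκ8)
    (Pool.Agent.Helper90.NW.out_sc_of
      (fun eta B h0 _ hB => Pool.Agent.Helper53.NS.dev_thick Pool.Agent.Helper57.TX.tx1 eta B h0 hB) hk hκ hκ8)

/-- H: the two thick facts for the weights `bw n` -/
theorem good_w {k d : ℝ} (hk : 0 < k) (hk8 : k ≤ 1 / 8) (hd : 0 < d) (hd1 : d ≤ 1) (n : ℕ) :
    ∃ c C T₀ : ℝ, 0 < c ∧ 1 ≤ C ∧ ∀ T R L : ℝ, T₀ ≤ T → C ≤ L → L ≤ Real.log T → 1 ≤ R → R ≤ L ^ (1 - d) →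
    ∃ E : Set ℝ, volume E ≤ ENNReal.ofReal (C * L ^ (-4 : ℝ) * T) ∧ ∀ t ∈ Icc (T / 2) (3 * T), t ∉ E → ∀ u : ℝ, |u - t| ≤ sp T →
      |Tw k T R L n u - (Mw k R L n - Dw k T R L n t)| ≤ C * L ^ (-c) ∧
      |Ow k T R L n u - (Mw k R L n - Aw k R L n)| ≤ C * L ^ (-c) ∧
      (zc (Wr T R 1 u) : ℝ) ≤ L := by
  have hkd : k * d / 2 ≤ 1 / 8 := by nlinarith
  exact good_w_of hk hk8 hd hd1 n (good hk hk8 (by positivity) hkd) (Pool.Agent.Helper84.NW.bw_facts hk hk8 hd hd1 n)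
    (Pool.Agent.Helper10.NW.win_of Pool.Agent.Helper57.TX.tx1 hd hd1)

end Pool.Agent.Helper36.NW
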