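import Pool.Agent.Helper57.NW.Defs
import Pool.Agent.Helper24.UG.Ker
import Pool.Agent.Helper24.UG.Win

/-!
# NW, blocks G4 and H: all weights at once, from the three estimates for one scale
-/

set_option autoImplicit false
set_option linter.unusedVariables false
open MeasureTheory Set Filter Topology
open Pool.Agent.Helper57.Zeta Pool.Agent.Helper57.LH Pool.Agent.Helper57.ED
open Pool.Agent.Helper54.LG (za zb qk SS MM qk_cont qk_zero_nonneg qk_neg_right)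
open Pool.Agent.Helper93.UG (zc sp)
open Pool.Agent.Helper69.UG (XX NX)
open Pool.Agent.Helper57.TX (QX DP rs)
open Pool.Agent.Helper24.UG (summable_q0)
open Pool.Agent.Helper57.NW

namespace Pool.Agent.Helper36.NW

lemma sp_pos {T : ℝ} (hT : 1 < T) : 0 < sp T := by
  unfold sp
  have := Real.log_pos hT
  positivity

lemma XX_pos {T M : ℝ} (hT : 1 < T) (hM : 0 < M) : 0 < XX T M := by
  unfold XX
  have := Real.log_pos hT
  positivity

lemma qk_sp {k T t : ℝ} (hk : 0 < k) (hT : 1 < T) (j : ℕ) (ρ : ZS) :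
    qk 0 (2 * Real.pi * (((ρ : ℂ).im - t) / sp T) / (1 + k) ^ j) = qk 0 (zb (XX T ((1 + k) ^ j)) t ρ) := by
  rw [← qk_neg_right]
  congr 1
  unfold sp zb XX
  have := (Real.log_pos hT).ne'
  have := Real.pi_pos.ne'
  have h1 : (1 + k) ≠ 0 := by positivity
  field_simp
  ring

lemma summ_j {k T t : ℝ} (hk : 0 < k) (hT : 1 < T) (j : ℕ) :
    Summable fun ρ : ZS => mx ρ * qk 0 (2 * Real.pi * (((ρ : ℂ).im - t) / sp T) / (1 + k) ^ j) := by
  refine (summable_q0 (XX_pos (M := (1 + k) ^ j) hT (by positivity)) t).congr fun ρ => ?_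
  rw [qk_sp hk hT]

/-- The linear statistic as a sum over the scales. -/
theorem Tb_eq {k T t : ℝ} (hk : 0 < k) (hT : 1 < T) (J : Finset ℕ) (b : ℕ → ℝ) :
    Tb k T J b t = ∑ j ∈ J, b j * NX (XX T ((1 + k) ^ j)) t := by
  have h : ∀ j ∈ J, Summable fun ρ : ZS => b j * (mx ρ * qk 0 (2 * Real.pi * (((ρ : ℂ).im - t) / sp T) / (1 + k) ^ j)) :=
    fun j _ => (summ_j hk hT j).mul_left _
  have e : ∀ ρ : ZS, mx ρ * Pb k J b (((ρ : ℂ).im - t) / sp T) =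
      ∑ j ∈ J, b j * (mx ρ * qk 0 (2 * Real.pi * (((ρ : ℂ).im - t) / sp T) / (1 + k) ^ j)) := by
    intro ρ
    unfold Pb
    rw [Finset.mul_sum]
    refine Finset.sum_congr rfl fun j _ => ?_
    ring
  unfold Tb
  rw [tsum_congr e, Summable.tsum_finsetSum h]
  refine Finset.sum_congr rfl fun j _ => ?_
  rw [tsum_mul_left]
  congr 1
  unfold Helper69.UG.NX
  exact tsum_congr fun ρ => by rw [qk_sp hk hT]

open Classical in
/-- Its tail as a sum over the scales. -/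
theorem Ob_eq {k T L t : ℝ} (hk : 0 < k) (hT : 1 < T) (J : Finset ℕ) (b : ℕ → ℝ) :
    Ob k T L J b t = ∑ j ∈ J, b j *
      ∑' ρ : ZS, mx ρ * (if |(ρ : ℂ).im - t| ≤ L * sp T then 0 else qk 0 (2 * Real.pi * (((ρ : ℂ).im - t) / sp T) / (1 + k) ^ j)) := by
  have h0 : ∀ j : ℕ, Summable fun ρ : ZS => mx ρ * (if |(ρ : ℂ).im - t| ≤ L * sp T then 0 else
      qk 0 (2 * Real.pi * (((ρ : ℂ).im - t) / sp T) / (1 + k) ^ j)) := by
    intro j
    refine Summable.of_nonneg_of_le (fun ρ => ?_) (fun ρ => ?_) (summ_j (t := t) hk hT j)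
    · refine mul_nonneg (mx_nonneg _) ?_
      split_ifs
      · exact le_rfl
      · exact qk_zero_nonneg _
    · refine mul_le_mul_of_nonneg_left ?_ (mx_nonneg _)
      split_ifs
      · exact qk_zero_nonneg _
      · exact le_rfl
  have h : ∀ j ∈ J, Summable fun ρ : ZS => b j * (mx ρ * (if |(ρ : ℂ).im - t| ≤ L * sp T then 0 else
      qk 0 (2 * Real.pi * (((ρ : ℂ).im - t) / sp T) / (1 + k) ^ j))) := fun j _ => (h0 j).mul_left _
  have e : ∀ ρ : ZS, mx ρ * (if |(ρ : ℂ).im - t| ≤ L * sp T then 0 else Pb k J b (((ρ : ℂ).im - t) / sp T)) =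
      ∑ j ∈ J, b j * (mx ρ * (if |(ρ : ℂ).im - t| ≤ L * sp T then 0 else
        qk 0 (2 * Real.pi * (((ρ : ℂ).im - t) / sp T) / (1 + k) ^ j))) := by
    intro ρ
    split_ifs
    · simp
    · unfold Pb
      rw [Finset.mul_sum]
      refine Finset.sum_congr rfl fun j _ => ?_
      ring
  unfold Ob
  rw [tsum_congr e, Summable.tsum_finsetSum h]
  refine Finset.sum_congr rfl fun j _ => ?_
  rw [tsum_mul_left]

lemma mem_QX {X : ℝ} {p : ℕ} : p ∈ QX X ↔ p.Prime ∧ Real.log p ≤ X := by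
  unfold QX
  rw [Finset.mem_filter, Finset.mem_range, Nat.lt_succ_iff, Nat.le_floor_iff (Real.exp_pos X).le]
  constructor
  · rintro ⟨h1, h2⟩
    refine ⟨h2, ?_⟩
    rw [Real.log_le_iff_le_exp (by exact_mod_cast h2.pos)]
    exact h1
  · rintro ⟨h1, h2⟩
    refine ⟨?_, h1⟩
    rw [Real.log_le_iff_le_exp (by exact_mod_cast h1.pos)] at h2
    exact h2

/-- The prime polynomial as a sum over the scales. -/
theorem DP_eq {k T X t : ℝ} (J : Finset ℕ) (b : ℕ → ℝ) (h : ∀ j ∈ J, b j ≠ 0 → XX T ((1 + k) ^ j) ≤ X) :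
    (DP (QX X) (rb k T J b) t).re = ∑ j ∈ J, b j * (DP (QX (XX T ((1 + k) ^ j))) (rs (XX T ((1 + k) ^ j))) t).re := by
  have h1 : DP (QX X) (rb k T J b) t = ∑ j ∈ J, (b j : ℂ) * DP (QX (XX T ((1 + k) ^ j))) (rs (XX T ((1 + k) ^ j))) t := by
    unfold DP rb
    have e : ∀ p ∈ QX X, ((∑ j ∈ J, b j * (if Real.log p ≤ XX T ((1 + k) ^ j) then rs (XX T ((1 + k) ^ j)) p else 0) : ℝ) : ℂ) *
        (p : ℂ) ^ (-((1 / 2 : ℂ) + (t : ℂ) * Complex.I)) =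
        ∑ j ∈ J, (b j : ℂ) * (if Real.log p ≤ XX T ((1 + k) ^ j) then (rs (XX T ((1 + k) ^ j)) p : ℂ) *
          (p : ℂ) ^ (-((1 / 2 : ℂ) + (t : ℂ) * Complex.I)) else 0) := by
      intro p _
      rw [Complex.ofReal_sum, Finset.sum_mul]
      refine Finset.sum_congr rfl fun j _ => ?_
      split_ifs
      · push_cast
        ring
      · simp
    rw [Finset.sum_congr rfl e, Finset.sum_comm]
    refine Finset.sum_congr rfl fun j hj => ?_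
    rw [← Finset.mul_sum]
    by_cases hb : b j = 0
    · rw [hb]
      simp
    · congr 1
      rw [← Finset.sum_filter]
      refine Finset.sum_congr ?_ fun _ _ => rfl
      ext p
      rw [Finset.mem_filter, mem_QX, mem_QX]
      constructor
      · rintro ⟨⟨h2, -⟩, h3⟩
        exact ⟨h2, h3⟩
      · rintro ⟨h2, h3⟩
        exact ⟨⟨h2, h3.trans (h j hj hb)⟩, h3⟩
  rw [h1, Complex.re_sum]
  refine Finset.sum_congr rfl fun j _ => ?_
  rw [Complex.re_ofReal_mul]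

lemma Pb_int {k L : ℝ} (J : Finset ℕ) (b : ℕ → ℝ) :
    ∫ x in (-L)..L, Pb k J b x = ∑ j ∈ J, b j * ∫ x in (-L)..L, qk 0 (2 * Real.pi * x / (1 + k) ^ j) := by
  have hc : ∀ j : ℕ, Continuous fun x : ℝ => qk 0 (2 * Real.pi * x / (1 + k) ^ j) := by
    intro j
    exact (qk_cont 0).comp (by fun_prop)
  unfold Pb
  rw [intervalIntegral.integral_finsetSum]
  · refine Finset.sum_congr rfl fun j _ => ?_
    rw [intervalIntegral.integral_const_mul]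
  · intro j _
    exact ((hc j).const_mul (b j) : Continuous fun x => b j * qk 0 (2 * Real.pi * x / (1 + k) ^ j)).intervalIntegrable _ _

lemma wsum {J : Finset ℕ} {b f : ℕ → ℝ} {B v : ℝ} (hv : 0 ≤ v) (hf : ∀ j ∈ J, b j ≠ 0 → |f j| ≤ v) (hB : ∑ j ∈ J, |b j| ≤ B) :
    |∑ j ∈ J, b j * f j| ≤ B * v := by
  calc |∑ j ∈ J, b j * f j| ≤ ∑ j ∈ J, |b j * f j| := Finset.abs_sum_le_sum_abs _ _
    _ ≤ ∑ j ∈ J, |b j| * v := by
        refine Finset.sum_le_sum fun j hj => ?_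
        rw [abs_mul]
        by_cases hb : b j = 0
        · rw [hb]
          simp
        · exact mul_le_mul_of_nonneg_left (hf j hj hb) (abs_nonneg _)
    _ = (∑ j ∈ J, |b j|) * v := by rw [Finset.sum_mul]
    _ ≤ B * v := mul_le_mul_of_nonneg_right hB hv

/-- G4: all weights at once, from G1, G2, G3 by linearity; and `NX` as the sum over the zeros -/
theorem good_of {k κ : ℝ} (hk : 0 < k) (hk8 : k ≤ 1 / 8) (hκ : 0 < κ) (hκ8 : κ ≤ 1 / 8)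
    (tot_sc : ∃ c C T₀ : ℝ, 0 < c ∧ 1 ≤ C ∧ ∀ T L : ℝ, T₀ ≤ T → C ≤ L → L ≤ Real.log T →
      ∃ E : Set ℝ, volume E ≤ ENNReal.ofReal (C * L ^ (-4 : ℝ) * T) ∧ ∀ t ∈ Icc (T / 2) (3 * T), t ∉ E → ∀ u : ℝ, |u - t| ≤ sp T →
      ∀ j : ℕ, L ^ κ ≤ (1 + k) ^ j → (1 + k) ^ j ≤ L ^ (1 - κ) →
        |NX (XX T ((1 + k) ^ j)) u - ((1 + k) ^ j - SS (XX T ((1 + k) ^ j)) u)| ≤ C * L ^ (-c))
    (ss_sc : ∃ c C T₀ : ℝ, 0 < c ∧ 1 ≤ C ∧ ∀ T L : ℝ, T₀ ≤ T → C ≤ L → L ≤ Real.log T →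
      ∃ E : Set ℝ, volume E ≤ ENNReal.ofReal (C * L ^ (-4 : ℝ) * T) ∧ ∀ t ∈ Icc (T / 2) (3 * T), t ∉ E → ∀ u : ℝ, |u - t| ≤ sp T →
      ∀ j : ℕ, L ^ κ ≤ (1 + k) ^ j → (1 + k) ^ j ≤ L ^ (1 - κ) →
        |SS (XX T ((1 + k) ^ j)) u - (DP (QX (XX T ((1 + k) ^ j))) (rs (XX T ((1 + k) ^ j))) t).re| ≤ C * L ^ (-c))
    (out_sc : ∃ c C T₀ : ℝ, 0 < c ∧ 1 ≤ C ∧ ∀ T L : ℝ, T₀ ≤ T → C ≤ L → L ≤ Real.log T →
      ∃ E : Set ℝ, volume E ≤ ENNReal.ofReal (C * L ^ (-4 : ℝ) * T) ∧ ∀ t ∈ Icc (T / 2) (3 * T), t ∉ E → ∀ u : ℝ, |u - t| ≤ sp T →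
      ∀ j : ℕ, L ^ κ ≤ (1 + k) ^ j → (1 + k) ^ j ≤ L ^ (1 - κ) →
        |∑' ρ : ZS, mx ρ * (if |(ρ : ℂ).im - u| ≤ L * sp T then 0 else qk 0 (2 * Real.pi * (((ρ : ℂ).im - u) / sp T) / (1 + k) ^ j)) -
          ((1 + k) ^ j - ∫ x in (-L)..L, qk 0 (2 * Real.pi * x / (1 + k) ^ j))| ≤ C * L ^ (-c)) :
    ∃ c C T₀ : ℝ, 0 < c ∧ 1 ≤ C ∧ ∀ T L : ℝ, T₀ ≤ T → C ≤ L → L ≤ Real.log T →
    ∃ E : Set ℝ, volume E ≤ ENNReal.ofReal (C * L ^ (-4 : ℝ) * T) ∧ ∀ t ∈ Icc (T / 2) (3 * T), t ∉ E → ∀ u : ℝ, |u - t| ≤ sp T →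
    ∀ (J : Finset ℕ) (b : ℕ → ℝ) (B X : ℝ),
      (∀ j ∈ J, b j ≠ 0 → L ^ κ ≤ (1 + k) ^ j ∧ (1 + k) ^ j ≤ L ^ (1 - κ) ∧ XX T ((1 + k) ^ j) ≤ X) →
      ∑ j ∈ J, |b j| ≤ B →
      |Tb k T J b u - (Mb k J b - (DP (QX X) (rb k T J b) t).re)| ≤ B * (C * L ^ (-c)) ∧
      |Ob k T L J b u - (Mb k J b - ∫ x in (-L)..L, Pb k J b x)| ≤ B * (C * L ^ (-c)) := by
  classical
  obtain ⟨c₁, C₁, T₁, hc₁, hC₁, H₁⟩ := tot_sc
  obtain ⟨c₂, C₂, T₂, hc₂, hC₂, H₂⟩ := ss_sc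
  obtain ⟨c₃, C₃, T₃, hc₃, hC₃, H₃⟩ := out_sc
  obtain ⟨c, hc⟩ : ∃ c, c = min c₁ (min c₂ c₃) := ⟨_, rfl⟩
  have hcc1 : c ≤ c₁ := hc ▸ min_le_left _ _
  have hcc2 : c ≤ c₂ := hc ▸ (min_le_right _ _).trans (min_le_left _ _)
  have hcc3 : c ≤ c₃ := hc ▸ (min_le_right _ _).trans (min_le_right _ _)
  have hc0 : 0 < c := hc ▸ lt_min hc₁ (lt_min hc₂ hc₃)
  refine ⟨c, C₁ + C₂ + C₃, max (max T₁ T₂) (max T₃ 3), hc0, by linarith, ?_⟩
  intro T L hT hL hLT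
  have hT1 : T₁ ≤ T := ((le_max_left _ _).trans (le_max_left _ _)).trans hT
  have hT2 : T₂ ≤ T := ((le_max_right _ _).trans (le_max_left _ _)).trans hT
  have hT3 : T₃ ≤ T := ((le_max_left _ _).trans (le_max_right _ _)).trans hT
  have hT4 : 3 ≤ T := ((le_max_right _ _).trans (le_max_right _ _)).trans hT
  have hT0 : 0 < T := by linarith
  have hL1 : 1 ≤ L := by linarith
  have hL0 : 0 < L := by linarith
  obtain ⟨E₁, hE₁, G₁⟩ := H₁ T L hT1 (by linarith) hLT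
  obtain ⟨E₂, hE₂, G₂⟩ := H₂ T L hT2 (by linarith) hLT
  obtain ⟨E₃, hE₃, G₃⟩ := H₃ T L hT3 (by linarith) hLT
  refine ⟨E₁ ∪ (E₂ ∪ E₃), ?_, ?_⟩
  · refine (measure_union_le _ _).trans ((add_le_add hE₁ ((measure_union_le _ _).trans (add_le_add hE₂ hE₃))).trans ?_)
    rw [← ENNReal.ofReal_add (by positivity) (by positivity), ← ENNReal.ofReal_add (by positivity) (by positivity)]
    apply ENNReal.ofReal_le_ofReal
    exact le_of_eq (by ring)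
  · intro t ht htE u hu J b B X hJ hB
    have ht1 : t ∉ E₁ := fun h => htE (Or.inl h)
    have ht2 : t ∉ E₂ := fun h => htE (Or.inr (Or.inl h))
    have ht3 : t ∉ E₃ := fun h => htE (Or.inr (Or.inr h))
    have hL4 : ∀ c' : ℝ, c ≤ c' → L ^ (-c') ≤ L ^ (-c) := fun c' h =>
      Real.rpow_le_rpow_of_exponent_le hL1 (by linarith)
    have hLc : 0 < L ^ (-c) := Real.rpow_pos_of_pos hL0 _
    have hB0 : 0 ≤ B := le_trans (Finset.sum_nonneg fun _ _ => abs_nonneg _) hB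
    constructor
    · rw [Tb_eq hk (by linarith : 1 < T), DP_eq J b fun j hj hb => (hJ j hj hb).2.2]
      have e : (∑ j ∈ J, b j * NX (XX T ((1 + k) ^ j)) u) -
          (Mb k J b - ∑ j ∈ J, b j * (DP (QX (XX T ((1 + k) ^ j))) (rs (XX T ((1 + k) ^ j))) t).re) =
          ∑ j ∈ J, b j * (NX (XX T ((1 + k) ^ j)) u -
            ((1 + k) ^ j - (DP (QX (XX T ((1 + k) ^ j))) (rs (XX T ((1 + k) ^ j))) t).re)) := by
        unfold Mb
        rw [← Finset.sum_sub_distrib, ← Finset.sum_sub_distrib]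
        exact Finset.sum_congr rfl fun j _ => by ring
      rw [e]
      refine wsum (by positivity) (fun j hj hb => ?_) hB
      obtain ⟨h1, h2, -⟩ := hJ j hj hb
      have g1 := G₁ t ht ht1 u hu j h1 h2
      have g2 := G₂ t ht ht2 u hu j h1 h2
      have e2 : NX (XX T ((1 + k) ^ j)) u - ((1 + k) ^ j - (DP (QX (XX T ((1 + k) ^ j))) (rs (XX T ((1 + k) ^ j))) t).re) =
          (NX (XX T ((1 + k) ^ j)) u - ((1 + k) ^ j - SS (XX T ((1 + k) ^ j)) u)) -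
          (SS (XX T ((1 + k) ^ j)) u - (DP (QX (XX T ((1 + k) ^ j))) (rs (XX T ((1 + k) ^ j))) t).re) := by ring
      rw [e2]
      refine (abs_sub _ _).trans ((add_le_add g1 g2).trans ?_)
      calc C₁ * L ^ (-c₁) + C₂ * L ^ (-c₂) ≤ C₁ * L ^ (-c) + C₂ * L ^ (-c) :=
            add_le_add (mul_le_mul_of_nonneg_left (hL4 _ hcc1) (by linarith)) (mul_le_mul_of_nonneg_left (hL4 _ hcc2) (by linarith))
        _ ≤ (C₁ + C₂ + C₃) * L ^ (-c) := by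
            rw [← add_mul]
            exact mul_le_mul_of_nonneg_right (by linarith) hLc.le
    · rw [Ob_eq hk (by linarith : 1 < T), Pb_int]
      have e : (∑ j ∈ J, b j * ∑' ρ : ZS, mx ρ * (if |(ρ : ℂ).im - u| ≤ L * sp T then 0 else
            qk 0 (2 * Real.pi * (((ρ : ℂ).im - u) / sp T) / (1 + k) ^ j))) -
          (Mb k J b - ∑ j ∈ J, b j * ∫ x in (-L)..L, qk 0 (2 * Real.pi * x / (1 + k) ^ j)) =
          ∑ j ∈ J, b j * ((∑' ρ : ZS, mx ρ * (if |(ρ : ℂ).im - u| ≤ L * sp T then 0 else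
            qk 0 (2 * Real.pi * (((ρ : ℂ).im - u) / sp T) / (1 + k) ^ j))) -
            ((1 + k) ^ j - ∫ x in (-L)..L, qk 0 (2 * Real.pi * x / (1 + k) ^ j))) := by
        unfold Mb
        rw [← Finset.sum_sub_distrib, ← Finset.sum_sub_distrib]
        exact Finset.sum_congr rfl fun j _ => by ring
      rw [e]
      refine wsum (by positivity) (fun j hj hb => ?_) hB
      obtain ⟨h1, h2, -⟩ := hJ j hj hb
      have g3 := G₃ t ht ht3 u hu j h1 h2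
      refine le_trans (le_of_eq ?_) (g3.trans ?_)
      · congr
      · calc C₃ * L ^ (-c₃) ≤ C₃ * L ^ (-c) := mul_le_mul_of_nonneg_left (hL4 _ hcc3) (by linarith)
          _ ≤ _ := mul_le_mul_of_nonneg_right (by linarith) hLc.le

/-- H: the two thick facts for the weights `bw n` (from `good`, `bw_facts`, `win`) -/
theorem good_w_of {k d : ℝ} (hk : 0 < k) (hk8 : k ≤ 1 / 8) (hd : 0 < d) (hd1 : d ≤ 1) (n : ℕ)
    (good : ∃ c C T₀ : ℝ, 0 < c ∧ 1 ≤ C ∧ ∀ T L : ℝ, T₀ ≤ T → C ≤ L → L ≤ Real.log T →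
      ∃ E : Set ℝ, volume E ≤ ENNReal.ofReal (C * L ^ (-4 : ℝ) * T) ∧ ∀ t ∈ Icc (T / 2) (3 * T), t ∉ E → ∀ u : ℝ, |u - t| ≤ sp T →
      ∀ (J : Finset ℕ) (b : ℕ → ℝ) (B X : ℝ),
        (∀ j ∈ J, b j ≠ 0 → L ^ (k * d / 2) ≤ (1 + k) ^ j ∧ (1 + k) ^ j ≤ L ^ (1 - k * d / 2) ∧ XX T ((1 + k) ^ j) ≤ X) →
        ∑ j ∈ J, |b j| ≤ B →
        |Tb k T J b u - (Mb k J b - (DP (QX X) (rb k T J b) t).re)| ≤ B * (C * L ^ (-c)) ∧
        |Ob k T L J b u - (Mb k J b - ∫ x in (-L)..L, Pb k J b x)| ≤ B * (C * L ^ (-c)))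
    (bw_facts : ∃ B C : ℝ, 1 ≤ B ∧ 1 ≤ C ∧ ∀ R L : ℝ, C ≤ L → 1 ≤ R → R ≤ L ^ (1 - d) →
      (∀ j, bw k R L n j ≠ 0 → j ∈ Jw k L n ∧ R * (L / R) ^ k ≤ (1 + k) ^ j ∧ (1 + k) ^ j ≤ (1 + k) ^ n * (L * (L / R) ^ (-k))) ∧
      ∑ j ∈ Jw k L n, |bw k R L n j| ≤ B ∧
      ∑ j ∈ Jw k L n, |bw k R L n j - bw k R L 0 j| ≤ B / Real.log (L / R))
    (win : ∃ C T₀ : ℝ, 1 ≤ C ∧ ∀ T R L : ℝ, T₀ ≤ T → C ≤ L → L ≤ Real.log T → 1 ≤ R → R ≤ L ^ (1 - d) →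
      volume {t : ℝ | t ∈ Icc (T / 2) (3 * T) ∧ L < (zc (Wr T R 2 t) : ℝ)} ≤ ENNReal.ofReal (C * L ^ (-4 : ℝ) * T)) :
    ∃ c C T₀ : ℝ, 0 < c ∧ 1 ≤ C ∧ ∀ T R L : ℝ, T₀ ≤ T → C ≤ L → L ≤ Real.log T → 1 ≤ R → R ≤ L ^ (1 - d) →
    ∃ E : Set ℝ, volume E ≤ ENNReal.ofReal (C * L ^ (-4 : ℝ) * T) ∧ ∀ t ∈ Icc (T / 2) (3 * T), t ∉ E → ∀ u : ℝ, |u - t| ≤ sp T →
      |Tw k T R L n u - (Mw k R L n - Dw k T R L n t)| ≤ C * L ^ (-c) ∧
      |Ow k T R L n u - (Mw k R L n - Aw k R L n)| ≤ C * L ^ (-c) ∧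
      (zc (Wr T R 1 u) : ℝ) ≤ L := by
  obtain ⟨c, C₁, T₁, hc, hC₁, H₁⟩ := good
  obtain ⟨B, C₂, hB, hC₂, H₂⟩ := bw_facts
  obtain ⟨C₃, T₃, hC₃, H₃⟩ := win
  have hkd : 0 < k * d / 2 := by positivity
  have hq0 : (0 : ℝ) < (1 + k) ^ n := by positivity
  obtain ⟨C₄, hC₄⟩ : ∃ C₄ : ℝ, C₄ = ((1 + k) ^ n) ^ (1 / (k * d / 2)) := ⟨_, rfl⟩
  refine ⟨c, max (max (B * C₁ + C₃) C₂) C₄, max (max T₁ T₃) 3, hc, ?_, ?_⟩
  · refine le_trans ?_ ((le_max_right _ _).trans (le_max_left _ _))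
    exact hC₂
  intro T R L hT hL hLT hR hRL
  obtain ⟨CC, hCC⟩ : ∃ CC : ℝ, CC = max (max (B * C₁ + C₃) C₂) C₄ := ⟨_, rfl⟩
  rw [← hCC] at hL ⊢
  have hm1 : B * C₁ + C₃ ≤ CC := hCC ▸ (le_max_left _ _).trans (le_max_left _ _)
  have hm2 : C₂ ≤ CC := hCC ▸ (le_max_right _ _).trans (le_max_left _ _)
  have hm4 : C₄ ≤ CC := hCC ▸ le_max_right _ _
  have hBC : C₁ ≤ B * C₁ := le_mul_of_one_le_left (by linarith) hB
  have hT1 : T₁ ≤ T := ((le_max_left _ _).trans (le_max_left _ _)).trans hT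
  have hT3 : T₃ ≤ T := ((le_max_right _ _).trans (le_max_left _ _)).trans hT
  have hT4 : 3 ≤ T := (le_max_right _ _).trans hT
  have hT0 : 0 < T := by linarith
  have hL1 : 1 ≤ L := by linarith
  have hL0 : 0 < L := by linarith
  have hR0 : 0 < R := by linarith
  obtain ⟨E₁, hE₁, G₁⟩ := H₁ T L hT1 (by linarith) hLT
  obtain ⟨F1, F2, -⟩ := H₂ R L (by linarith) hR hRL
  have G₃ := H₃ T R L hT3 (by linarith) hLT hR hRL
  -- the ratio
  have hLd : L ^ d ≤ L / R := by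
    rw [le_div_iff₀ hR0]
    calc L ^ d * R ≤ L ^ d * L ^ (1 - d) := mul_le_mul_of_nonneg_left hRL (by positivity)
      _ = L := by
        rw [← Real.rpow_add hL0]
        norm_num
  have hLR0 : 0 < L / R := by positivity
  have hlow : L ^ (k * d / 2) ≤ R * (L / R) ^ k := by
    calc L ^ (k * d / 2) ≤ L ^ (d * k) := Real.rpow_le_rpow_of_exponent_le hL1 (by nlinarith)
      _ = (L ^ d) ^ k := by rw [Real.rpow_mul hL0.le]
      _ ≤ (L / R) ^ k := Real.rpow_le_rpow (by positivity) hLd hk.le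
      _ ≤ R * (L / R) ^ k := le_mul_of_one_le_left (by positivity) hR
  have hhigh : (1 + k) ^ n * (L * (L / R) ^ (-k)) ≤ L ^ (1 - k * d / 2) := by
    have h1 : (L / R) ^ (-k) ≤ L ^ (-(d * k)) := by
      calc (L / R) ^ (-k) ≤ (L ^ d) ^ (-k) := Real.rpow_le_rpow_of_nonpos (by positivity) hLd (by linarith)
        _ = L ^ (-(d * k)) := by
          rw [← Real.rpow_mul hL0.le]
          congr 1
          ring
    have h2 : (1 + k) ^ n ≤ L ^ (k * d / 2) := by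
      have h3 : C₄ ^ (k * d / 2) = (1 + k) ^ n := by
        rw [hC₄, ← Real.rpow_mul hq0.le]
        have : 1 / (k * d / 2) * (k * d / 2) = 1 := by field_simp
        rw [this, Real.rpow_one]
      rw [← h3]
      refine Real.rpow_le_rpow ?_ (hm4.trans hL) hkd.le
      rw [hC₄]
      positivity
    calc (1 + k) ^ n * (L * (L / R) ^ (-k)) ≤ L ^ (k * d / 2) * (L * L ^ (-(d * k))) :=
          mul_le_mul h2 (mul_le_mul_of_nonneg_left h1 hL0.le) (by positivity) (by positivity)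
      _ = L ^ (1 - k * d / 2) := by
        nth_rewrite 2 [← Real.rpow_one L]
        rw [← Real.rpow_add hL0, ← Real.rpow_add hL0]
        congr 1
        ring
  have hlT : 0 < Real.log T := by linarith
  have hsp : 0 < sp T := sp_pos (by linarith)
  refine ⟨E₁ ∪ {t : ℝ | t ∈ Icc (T / 2) (3 * T) ∧ L < (zc (Wr T R 2 t) : ℝ)}, ?_, ?_⟩
  · refine (measure_union_le _ _).trans ((add_le_add hE₁ G₃).trans ?_)
    rw [← ENNReal.ofReal_add (by positivity) (by positivity)]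
    apply ENNReal.ofReal_le_ofReal
    calc C₁ * L ^ (-4 : ℝ) * T + C₃ * L ^ (-4 : ℝ) * T = (C₁ + C₃) * (L ^ (-4 : ℝ) * T) := by ring
      _ ≤ CC * (L ^ (-4 : ℝ) * T) := mul_le_mul_of_nonneg_right (by linarith) (by positivity)
      _ = _ := by ring
  · intro t ht htE u hu
    have ht1 : t ∉ E₁ := fun h => htE (Or.inl h)
    have ht2 : (zc (Wr T R 2 t) : ℝ) ≤ L := by
      by_contra h
      exact htE (Or.inr ⟨ht, not_le.1 h⟩)
    have h := G₁ t ht ht1 u hu (Jw k L n) (bw k R L n) B (Xr k T R L) (fun j _ hb => by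
      obtain ⟨-, f1, f2⟩ := F1 j hb
      refine ⟨hlow.trans f1, f2.trans hhigh, ?_⟩
      unfold XX Xr
      exact div_le_div_of_nonneg_left hlT.le (by positivity) f1) F2
    have hLc : 0 < L ^ (-c) := Real.rpow_pos_of_pos hL0 _
    have hle : B * (C₁ * L ^ (-c)) ≤ CC * L ^ (-c) := by
      rw [← mul_assoc]
      exact mul_le_mul_of_nonneg_right (by linarith) hLc.le
    refine ⟨h.1.trans hle, h.2.trans hle, ?_⟩
    refine le_trans ?_ ht2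
    have hu' := abs_le.1 hu
    have hRs : sp T ≤ R * sp T := le_mul_of_one_le_left hsp.le hR
    have h3 : zc (Wr T R 1 u) ≤ zc (Wr T R 2 t) := by
      refine Pool.Agent.Helper56.UG.zc_mono (a := t - 2 * R * sp T) (b := t + 2 * R * sp T) ?_ subset_rfl
      unfold Wr
      apply Icc_subset_Icc <;> linarith [hu'.1, hu'.2]
    exact_mod_cast h3

end Pool.Agent.Helper36.NW
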